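import Pool.Agent.Lib.MP_2794d1_ag.Base

/-!
Q2: An integral matrix whose eigenvalues have absolute value one is quasi-unipotent (Kronecker).
-/

namespace MP2794d1.QU

open Matrix Complex Filter Topology Polynomial
open scoped ContDiff

theorem Q2_im_eq {n : ℕ} (A : Matrix (Fin n) (Fin n) ℤ) : im A = A.map (Int.castRingHom ℂ) := rfl

theorem Q2_im_mul {n : ℕ} (A B : Matrix (Fin n) (Fin n) ℤ) : im (A * B) = im A * im B := by
  rw [Q2_im_eq, Q2_im_eq, Q2_im_eq, Matrix.map_mul]

theorem Q2_im_one {n : ℕ} : im (1 : Matrix (Fin n) (Fin n) ℤ) = 1 := by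
  rw [Q2_im_eq, Matrix.map_one _ (map_zero _) (map_one _)]

theorem Q2_im_pow {n : ℕ} (A : Matrix (Fin n) (Fin n) ℤ) (k : ℕ) : im (A ^ k) = im A ^ k := by
  induction k with
  | zero => rw [pow_zero, pow_zero, Q2_im_one]
  | succ k ih => rw [pow_succ, pow_succ, Q2_im_mul, ih]

theorem Q2_im_sub {n : ℕ} (A B : Matrix (Fin n) (Fin n) ℤ) : im (A - B) = im A - im B := by
  ext i j
  simp [im]

theorem Q2_im_inj {n : ℕ} {A B : Matrix (Fin n) (Fin n) ℤ} (h : im A = im B) : A = B := by
  ext i j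
  have h1 := congrFun (congrFun h i) j
  simp only [im, Matrix.map_apply] at h1
  exact_mod_cast h1

/-- an algebraic integer all of whose conjugates have norm one is a root of unity -/
theorem Q2_kron (p : ℤ[X]) (hp : p.Monic) (h : ∀ mu : ℂ, (p.map (Int.castRingHom ℂ)).IsRoot mu →
    ‖mu‖ = 1) (lam : ℂ) (hl : (p.map (Int.castRingHom ℂ)).IsRoot lam) :
    ∃ m : ℕ, 0 < m ∧ lam ^ m = 1 := by
  have hint : IsIntegral ℤ lam := by
    refine ⟨p, hp, ?_⟩
    rw [Polynomial.IsRoot.def, Polynomial.eval_map] at hl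
    exact hl
  have hintQ : IsIntegral ℚ lam := hint.tower_top
  haveI : FiniteDimensional ℚ (IntermediateField.adjoin ℚ {lam}) :=
    IntermediateField.adjoin.finiteDimensional hintQ
  haveI : NumberField (IntermediateField.adjoin ℚ {lam}) := ⟨⟩
  set K := IntermediateField.adjoin ℚ {lam} with hK
  set x : K := ⟨lam, IntermediateField.mem_adjoin_simple_self ℚ lam⟩ with hx
  have hxl : algebraMap K ℂ x = lam := rfl
  have hxint : IsIntegral ℤ x := by
    have h1 : IsIntegral ℤ (algebraMap K ℂ x) := by rw [hxl]; exact hint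
    exact (isIntegral_algebraMap_iff (FaithfulSMul.algebraMap_injective K ℂ)).1 h1
  have hroot : Polynomial.eval₂ (Int.castRingHom K) x p = 0 := by
    apply FaithfulSMul.algebraMap_injective K ℂ
    rw [Polynomial.hom_eval₂, map_zero, hxl]
    have h2 : (algebraMap K ℂ).comp (Int.castRingHom K) = Int.castRingHom ℂ := RingHom.ext_int _ _
    rw [h2]
    rw [Polynomial.IsRoot.def, Polynomial.eval_map] at hl
    exact hl
  obtain ⟨m, hm, h3⟩ := NumberField.Embeddings.pow_eq_one_of_norm_eq_one K ℂ hxint (by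
    intro φ
    apply h
    rw [Polynomial.IsRoot.def, Polynomial.eval_map]
    have h4 := congrArg φ hroot
    rw [Polynomial.hom_eval₂, map_zero] at h4
    have h5 : φ.comp (Int.castRingHom K) = Int.castRingHom ℂ := RingHom.ext_int _ _
    rw [h5] at h4
    exact h4)
  refine ⟨m, hm, ?_⟩
  have h6 := congrArg (algebraMap K ℂ) h3
  rw [map_pow, map_one, hxl] at h6
  exact h6

theorem Q2_dvd (s : Multiset ℂ) (q : ℂ[X]) (h : ∀ a ∈ s, (X - C a) ∣ q) :
    (s.map fun a => X - C a).prod ∣ q ^ (Multiset.card s) := by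
  induction s using Multiset.induction_on with
  | empty => simp
  | cons a s ih =>
    rw [Multiset.map_cons, Multiset.prod_cons, Multiset.card_cons, pow_succ, mul_comm]
    exact mul_dvd_mul (ih fun b hb => h b (Multiset.mem_cons_of_mem hb))
      (h a (Multiset.mem_cons_self a s))

theorem quasi_unip {n : ℕ} (A : Matrix (Fin n) (Fin n) ℤ)
    (h : ∀ (lam : ℂ) (v : Fin n → ℂ), v ≠ 0 → im A *ᵥ v = lam • v → ‖lam‖ = 1) :
    ∃ m : ℕ, 0 < m ∧ (A ^ m - 1) ^ n = 0 := by
  classical
  have hmap : A.charpoly.map (Int.castRingHom ℂ) = (im A).charpoly := by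
    rw [Q2_im_eq, Matrix.charpoly_map]
  have hroot : ∀ lam : ℂ, (im A).charpoly.IsRoot lam → ‖lam‖ = 1 := by
    intro lam hl
    rw [Polynomial.IsRoot.def, Matrix.eval_charpoly] at hl
    obtain ⟨v, hv, hv0⟩ := Matrix.exists_mulVec_eq_zero_iff.2 hl
    apply h lam v hv
    rw [Matrix.sub_mulVec, sub_eq_zero] at hv0
    rw [← hv0, Matrix.scalar_apply, ← Matrix.smul_one_eq_diagonal, Matrix.smul_mulVec,
      Matrix.one_mulVec]
  have hk : ∀ lam : ℂ, (im A).charpoly.IsRoot lam → ∃ m : ℕ, 0 < m ∧ lam ^ m = 1 := by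
    intro lam hl
    rw [← hmap] at hl
    exact Q2_kron A.charpoly (Matrix.charpoly_monic A) (fun mu hmu => hroot mu (by rwa [← hmap]))
      lam hl
  choose! k hk0 hk1 using hk
  set R := (im A).charpoly.roots with hR
  have hmem : ∀ a ∈ R, (im A).charpoly.IsRoot a := fun a ha => Polynomial.isRoot_of_mem_roots ha
  set m := ∏ a ∈ R.toFinset, k a with hm
  refine ⟨m, Finset.prod_pos fun a ha => hk0 a (hmem a (Multiset.mem_toFinset.1 ha)), ?_⟩
  have h1 : ∀ a ∈ R, (X - C a) ∣ (X ^ m - 1 : ℂ[X]) := by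
    intro a ha
    rw [Polynomial.dvd_iff_isRoot, Polynomial.IsRoot.def, Polynomial.eval_sub,
      Polynomial.eval_pow, Polynomial.eval_X, Polynomial.eval_one]
    obtain ⟨c, hc⟩ := Finset.dvd_prod_of_mem k (Multiset.mem_toFinset.2 ha)
    rw [hm, hc, pow_mul, hk1 a (hmem a ha), one_pow, sub_self]
  have h2 := Q2_dvd R (X ^ m - 1) h1
  have h3 : (R.map fun a => X - C a).prod = (im A).charpoly :=
    (IsAlgClosed.splits (im A).charpoly).eq_prod_roots_of_monic (Matrix.charpoly_monic _) |>.symm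
  have h4 : Multiset.card R = n := by
    rw [hR, ← (IsAlgClosed.splits (im A).charpoly).natDegree_eq_card_roots,
      Matrix.charpoly_natDegree_eq_dim, Fintype.card_fin]
  rw [h3, h4] at h2
  obtain ⟨q, hq⟩ := h2
  have h5 : Polynomial.aeval (im A) ((X ^ m - 1 : ℂ[X]) ^ n) = 0 := by
    rw [hq, map_mul, Matrix.aeval_self_charpoly, zero_mul]
  rw [map_pow, map_sub, map_pow, Polynomial.aeval_X, map_one] at h5
  apply Q2_im_inj
  rw [Q2_im_pow, Q2_im_sub, Q2_im_pow, Q2_im_one, h5]
  ext i j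
  simp [im]

end MP2794d1.QU
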