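import Pool.Agent.Lib.MP_2794d1_ag.U00
import Pool.Agent.Lib.MP_2794d1_ag.QU.Q2

/-!
Q3: The rational logarithm of a unipotent integral matrix. E = sum_{j < n} X^j / j!, L = sum_{k < n} (-1)^(k+1) X^k / k,
P = E (L) - (1 + X): (1 + X) P' = P + X^(n-1) S, so X^n divides P.
-/

namespace MP2794d1.QU

open Matrix Complex Filter Topology Polynomial
open scoped ContDiff

noncomputable def Q3_E (n : ℕ) : ℚ[X] := ∑ j ∈ Finset.range n, C ((j.factorial : ℚ)⁻¹) * X ^ j

noncomputable def Q3_L (n : ℕ) : ℚ[X] :=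
  ∑ k ∈ Finset.range n, C ((-1) ^ (k + 1) * (k : ℚ)⁻¹) * X ^ k

theorem Q3_L_dvd (n : ℕ) : X ∣ Q3_L n := by
  unfold Q3_L
  apply Finset.dvd_sum
  intro k _
  by_cases hk : k = 0
  · subst hk
    simp
  · exact (dvd_pow_self X hk).mul_left _

theorem Q3_dE (m : ℕ) : derivative (Q3_E (m + 1)) = Q3_E m := by
  unfold Q3_E
  rw [derivative_sum, Finset.sum_range_succ']
  simp only [derivative_C_mul_X_pow]
  have h0 : C (((0 : ℕ).factorial : ℚ)⁻¹ * ((0 : ℕ) : ℚ)) * X ^ (0 - 1) = (0 : ℚ[X]) := by simp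
  rw [h0, add_zero]
  refine Finset.sum_congr rfl fun j _ => ?_
  rw [Nat.add_sub_cancel]
  congr 2
  rw [Nat.factorial_succ]
  have h1 : ((j + 1 : ℕ) : ℚ) ≠ 0 := by positivity
  have h2 : (j.factorial : ℚ) ≠ 0 := by positivity
  push_cast at h1 ⊢
  field_simp

theorem Q3_E_succ (m : ℕ) : Q3_E (m + 1) = Q3_E m + C ((m.factorial : ℚ)⁻¹) * X ^ m := by
  unfold Q3_E
  rw [Finset.sum_range_succ]

theorem Q3_dL (m : ℕ) : (1 + X) * derivative (Q3_L (m + 1)) = 1 - (-X) ^ m := by
  have h1 : derivative (Q3_L (m + 1)) = ∑ i ∈ Finset.range m, (-X : ℚ[X]) ^ i := by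
    unfold Q3_L
    rw [derivative_sum, Finset.sum_range_succ']
    simp only [derivative_C_mul_X_pow]
    have h0 : C ((-1) ^ (0 + 1) * ((0 : ℕ) : ℚ)⁻¹ * ((0 : ℕ) : ℚ)) * X ^ (0 - 1) = (0 : ℚ[X]) := by
      simp
    rw [h0, add_zero]
    refine Finset.sum_congr rfl fun j _ => ?_
    rw [Nat.add_sub_cancel, neg_pow (X : ℚ[X]) j]
    have h2 : ((-1 : ℚ) ^ (j + 1 + 1) * ((j + 1 : ℕ) : ℚ)⁻¹ * ((j + 1 : ℕ) : ℚ)) = (-1) ^ j := by
      have h3 : ((j + 1 : ℕ) : ℚ) ≠ 0 := by positivity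
      rw [mul_assoc, inv_mul_cancel₀ h3, mul_one, pow_succ, pow_succ]
      ring
    rw [h2, C_pow, C_neg, C_1]
  rw [h1]
  have h4 := geom_sum_mul (-X : ℚ[X]) m
  linear_combination -h4

theorem Q3_key (m : ℕ) : X ^ (m + 1) ∣ (Q3_E (m + 1)).comp (Q3_L (m + 1)) - (1 + X) := by
  set E := Q3_E (m + 1) with hE
  set L := Q3_L (m + 1) with hL
  set P := E.comp L - (1 + X) with hP
  obtain ⟨l, hl⟩ := Q3_L_dvd (m + 1)
  rw [← hL] at hl
  have hdP : derivative P = derivative L * (E.comp L - C ((m.factorial : ℚ)⁻¹) * L ^ m) - 1 := by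
    rw [hP, derivative_sub, derivative_comp, derivative_add, derivative_one, derivative_X,
      zero_add, hE, Q3_dE, Q3_E_succ, add_comp, mul_comp, C_comp, X_pow_comp]
    ring
  have hode : (1 + X) * derivative P = P + X ^ m *
      (- C ((m.factorial : ℚ)⁻¹) * l ^ m * (1 - (-X) ^ m) - (-1) ^ m * E.comp L) := by
    have h1 := Q3_dL m
    rw [← hL] at h1
    have h2 : (-X : ℚ[X]) ^ m = (-1) ^ m * X ^ m := neg_pow X m
    rw [hdP, mul_sub, ← mul_assoc, h1, hP, h2]
    have h3 : L ^ m = X ^ m * l ^ m := by rw [hl, mul_pow]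
    rw [h3]
    ring
  have hc0 : P.coeff 0 = 0 := by
    rw [coeff_zero_eq_eval_zero, hP, eval_sub, eval_comp, hl, eval_mul, eval_X, zero_mul, hE]
    unfold Q3_E
    rw [eval_finsetSum, Finset.sum_range_succ']
    simp
  have hcoef : ∀ k, k ≤ m → P.coeff k = 0 := by
    intro k
    induction k with
    | zero => exact fun _ => hc0
    | succ k ih =>
      intro hk
      have h1 := congrArg (fun p : ℚ[X] => p.coeff k) hode
      simp only [coeff_add] at h1
      rw [add_mul, one_mul, coeff_add, coeff_derivative, coeff_X_pow_mul', if_neg (by omega),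
        add_zero, ih (by omega)] at h1
      have h2 : (X * derivative P).coeff k = 0 := by
        cases k with
        | zero => simp
        | succ j => rw [coeff_X_mul, coeff_derivative, ih (by omega), zero_mul]
      rw [h2, add_zero] at h1
      rcases mul_eq_zero.1 h1 with h3 | h3
      · exact h3
      · exfalso
        have h4 : ((k : ℚ) + 1) ≠ 0 := by positivity
        exact h4 h3
  rw [X_pow_dvd_iff]
  intro d hd
  exact hcoef d (by omega)

theorem exists_log {n : ℕ} (U : Matrix (Fin n) (Fin n) ℤ) (h : (U - 1) ^ n = 0) :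
    ∃ N : Matrix (Fin n) (Fin n) ℚ, N ^ n = 0 ∧ im U = uexp (cm N) 1 := by
  cases n with
  | zero => exact ⟨0, by ext i; exact i.elim0, by ext i; exact i.elim0⟩
  | succ m =>
    set f : Matrix (Fin (m + 1)) (Fin (m + 1)) ℤ →+* Matrix (Fin (m + 1)) (Fin (m + 1)) ℚ :=
      (Int.castRingHom ℚ).mapMatrix with hf
    set x := f (U - 1) with hx
    have hx0 : x ^ (m + 1) = 0 := by rw [hx, ← map_pow, h, map_zero]
    set N := aeval x (Q3_L (m + 1)) with hN
    have hN0 : N ^ (m + 1) = 0 := by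
      obtain ⟨l, hl⟩ := Q3_L_dvd (m + 1)
      rw [hN, hl, ← map_pow, mul_pow, map_mul, map_pow, aeval_X, hx0, zero_mul]
    have hEN : aeval N (Q3_E (m + 1)) = 1 + x := by
      obtain ⟨q, hq⟩ := Q3_key m
      have h1 := congrArg (aeval x) hq
      rw [map_sub, map_mul, map_pow, aeval_X, hx0, zero_mul, map_add, map_one, aeval_X,
        aeval_comp, sub_eq_zero] at h1
      exact h1
    have hxU : 1 + x = U.map (Int.castRingHom ℚ) := by
      rw [hx, map_sub, map_one, hf, RingHom.mapMatrix_apply]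
      abel
    refine ⟨N, hN0, ?_⟩
    have h2 : ∀ X : Matrix (Fin (m + 1)) (Fin (m + 1)) ℚ, cm X = (Rat.castHom ℂ).mapMatrix X :=
      fun _ => rfl
    have h3 : uexp (cm N) 1 = cm (aeval N (Q3_E (m + 1))) := by
      unfold uexp Q3_E
      rw [h2, h2, map_sum, map_sum]
      refine Finset.sum_congr rfl fun j _ => ?_
      rw [map_mul, map_pow, aeval_X, aeval_C, one_pow, one_div, ← Algebra.smul_def, ← map_pow]
      ext a b
      simp [RingHom.mapMatrix_apply, Matrix.map_apply, Matrix.smul_apply]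
    rw [h3, hEN, hxU]
    ext a b
    simp [im, cm]

end MP2794d1.QU
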