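import Pool.Agent.Lib.MP_2794d1_ag.F07
import Pool.Agent.Lib.MP_2794d1_ag.U00

/-!
Q4: The variation transported by a Moebius transformation: cjV V σ has group {g | σ g σ⁻¹ ∈ Δ} and Hodge filtration
F p z = V.F p (mob σ z) (z ↦ mob σ z). CM points, generic Mumford-Tate algebra, Shimura type and finiteness are unchanged.
-/

namespace MP2794d1

open Matrix Complex Filter Topology
open scoped ContDiff

/-- `σ⁻¹ Δ σ` -/
def cjG (Δ : Subgroup (Matrix.SpecialLinearGroup (Fin 2) ℝ))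
    (σ : Matrix.SpecialLinearGroup (Fin 2) ℝ) : Subgroup (Matrix.SpecialLinearGroup (Fin 2) ℝ) :=
  Δ.comap (MulAut.conj σ).toMonoidHom

theorem mem_cjG {Δ : Subgroup (Matrix.SpecialLinearGroup (Fin 2) ℝ)}
    {σ g : Matrix.SpecialLinearGroup (Fin 2) ℝ} : g ∈ cjG Δ σ ↔ σ * g * σ⁻¹ ∈ Δ := Iff.rfl

/-- `g ↦ σ g σ⁻¹` -/
def cjH (Δ : Subgroup (Matrix.SpecialLinearGroup (Fin 2) ℝ))
    (σ : Matrix.SpecialLinearGroup (Fin 2) ℝ) : cjG Δ σ →* Δ :=
  (MulAut.conj σ).toMonoidHom.subgroupComap Δ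

theorem cjH_coe (Δ : Subgroup (Matrix.SpecialLinearGroup (Fin 2) ℝ))
    (σ : Matrix.SpecialLinearGroup (Fin 2) ℝ) (g : cjG Δ σ) :
    ((cjH Δ σ g : Δ) : Matrix.SpecialLinearGroup (Fin 2) ℝ) = σ * g * σ⁻¹ := rfl

theorem Q4_cont (σ : Matrix.SpecialLinearGroup (Fin 2) ℝ) {z : ℂ} (hz : 0 < z.im) :
    Tendsto (mob σ) (𝓝 z) (𝓝 (mob σ z)) := (mob_analytic σ z hz).1.continuousAt

theorem Q4_im {z : ℂ} (hz : 0 < z.im) : ∀ᶠ y in 𝓝 z, 0 < y.im :=
  (isOpen_lt continuous_const Complex.continuous_im).mem_nhds hz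

theorem Q4_inv (σ : Matrix.SpecialLinearGroup (Fin 2) ℝ) {z : ℂ} (hz : 0 < z.im) :
    mob σ⁻¹ (mob σ z) = z := by
  rw [mob_mob _ _ _ hz, inv_mul_cancel, mob_one]

theorem Q4_inv' (σ : Matrix.SpecialLinearGroup (Fin 2) ℝ) {z : ℂ} (hz : 0 < z.im) :
    mob σ (mob σ⁻¹ z) = z := by
  rw [mob_mob _ _ _ hz, mul_inv_cancel, mob_one]

theorem Q4_griffiths {n : ℕ} (V : PolVHS n) (σ : Matrix.SpecialLinearGroup (Fin 2) ℝ) (p : ℤ)
    (z : ℂ) (hz : 0 < z.im) (s : ℂ → (Fin n → ℂ)) (hs : ∀ i, AnalyticAt ℂ (fun y => s y i) z)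
    (hF : ∀ᶠ y in 𝓝 z, s y ∈ V.F p (mob σ y)) :
    (fun i => deriv (fun y => s y i) z) ∈ V.F (p - 1) (mob σ z) := by
  have hw : 0 < (mob σ z).im := mob_im_pos σ z hz
  have h1 : ∀ i, AnalyticAt ℂ (fun y => s (mob σ⁻¹ y) i) (mob σ z) := by
    intro i
    have h2 := hs i
    rw [← Q4_inv σ hz] at h2
    exact h2.comp (mob_analytic σ⁻¹ _ hw).1
  have h2 : ∀ᶠ y in 𝓝 (mob σ z), s (mob σ⁻¹ y) ∈ V.F p y := by
    have h3 : Tendsto (mob σ⁻¹) (𝓝 (mob σ z)) (𝓝 z) := by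
      have h4 := Q4_cont σ⁻¹ hw
      rwa [Q4_inv σ hz] at h4
    filter_upwards [h3.eventually hF, Q4_im hw] with y hy hy'
    rwa [Q4_inv' σ hy'] at hy
  have h3 := V.griffiths p (mob σ z) hw (fun y => s (mob σ⁻¹ y)) h1 h2
  have h4 : (fun i => deriv (fun y => s y i) z) =
      deriv (mob σ) z • fun i => deriv (fun y => s (mob σ⁻¹ y) i) (mob σ z) := by
    funext i
    rw [Pi.smul_apply, smul_eq_mul]
    have h5 : (fun y => s y i) =ᶠ[𝓝 z] (fun y => s (mob σ⁻¹ y) i) ∘ mob σ := by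
      filter_upwards [Q4_im hz] with y hy
      rw [Function.comp_apply, Q4_inv σ hy]
    rw [h5.deriv_eq, deriv_comp z (h1 i).differentiableAt (mob_analytic σ z hz).1.differentiableAt,
      mul_comm]
  rw [h4]
  exact Submodule.smul_mem _ _ h3

/-- the variation transported by the Moebius transformation `σ` -/
noncomputable def cjV {n : ℕ} (V : PolVHS n) (σ : Matrix.SpecialLinearGroup (Fin 2) ℝ) :
    PolVHS n where
  wt := V.wt
  grp := cjG V.grp σ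
  rho := V.rho.comp (cjH V.grp σ)
  Q := V.Q
  F := fun p z => V.F p (mob σ z)
  lo := V.lo
  hi := V.hi
  F_lo := fun z hz => V.F_lo _ (mob_im_pos σ z hz)
  F_hi := fun z hz => V.F_hi _ (mob_im_pos σ z hz)
  flat := fun g => V.flat _
  phs := fun z hz => V.phs _ (mob_im_pos σ z hz)
  hol := by
    intro p z hz
    obtain ⟨r, W, hW, hev⟩ := V.hol p (mob σ z) (mob_im_pos σ z hz)
    refine ⟨r, fun y => W (mob σ y), fun i j => ?_, (Q4_cont σ hz).eventually hev⟩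
    exact (hW i j).comp (mob_analytic σ z hz).1
  griffiths := fun p z hz s hs hF => Q4_griffiths V σ p z hz s hs hF
  equiv := by
    intro g p z hz
    have h1 := V.equiv (cjH V.grp σ g) p (mob σ z) (mob_im_pos σ z hz)
    rw [cjH_coe, mob_mob _ _ _ hz] at h1
    have h2 : mob σ (mob g z) = mob (σ * g * σ⁻¹ * σ) z := by
      rw [mob_mob _ _ _ hz]
      congr 1
      group
    show V.F p (mob σ (mob g z)) = _
    rw [h2, h1]
    rfl

variable {n : ℕ} (V : PolVHS n) (σ : Matrix.SpecialLinearGroup (Fin 2) ℝ)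

theorem cjV_F (p : ℤ) (z : ℂ) : (cjV V σ).F p z = V.F p (mob σ z) := rfl

theorem cjV_IsCM (z : ℂ) (H : ℝ) : IsCM (cjV V σ) z H ↔ IsCM V (mob σ z) H := Iff.rfl

theorem cjV_IsCMc (z : ℂ) (H : ℝ) : IsCMc (cjV V σ) z H ↔ IsCMc V (mob σ z) H := Iff.rfl

theorem cjV_IsGrading (z : ℂ) (μ : Matrix (Fin n) (Fin n) ℂ) :
    IsGrading (cjV V σ) z μ ↔ IsGrading V (mob σ z) μ := Iff.rfl

/-- a property of all points of the upper half plane may be checked after `mob σ` -/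
theorem Q4_forall (P : ℂ → Prop) : (∀ z : ℂ, 0 < z.im → P (mob σ z)) ↔ ∀ z : ℂ, 0 < z.im → P z := by
  constructor
  · intro h z hz
    have h1 := h (mob σ⁻¹ z) (mob_im_pos _ z hz)
    rwa [Q4_inv' σ hz] at h1
  · intro h z hz
    exact h _ (mob_im_pos σ z hz)

theorem cjV_genericMT : genericMT (cjV V σ) = genericMT V := by
  unfold genericMT
  congr 1
  ext m
  simp only [Set.mem_setOf_eq]
  apply and_congr_right
  intro _
  exact Q4_forall σ (fun z => ∀ μ, IsGrading V z μ → μ ∈ cx (m : Set (Matrix (Fin n) (Fin n) ℚ)))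

theorem cjV_shimura (N : Matrix (Fin n) (Fin n) ℚ) :
    IsShimuraLine (cjV V σ) N ↔ IsShimuraLine V N := by
  have hg := cjV_genericMT V σ
  constructor
  · intro h
    refine ⟨?_, ?_, ?_, ?_, ?_, ?_⟩
    · rw [← hg]
      exact (Q4_forall σ (fun z => ∃ μ, IsGrading V z μ ∧
        μ ∈ cx (genericMT (cjV V σ) : Set (Matrix (Fin n) (Fin n) ℚ)))).1 h.grading
    · rw [← hg]
      exact h.lie
    · rw [← hg]
      exact (Q4_forall σ (fun z => ∀ X ∈ genericMT (cjV V σ), ∀ p, ∀ x ∈ V.F p z,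
        (cm X) *ᵥ x ∈ V.F (p - 1) z)).1 h.sv1
    · rw [← hg]
      exact (Q4_forall σ (fun z => ∀ X ∈ genericMT (cjV V σ), ∃ a : ℂ, ∀ p, ∀ x ∈ V.F p z,
        (cm X - a • cm N) *ᵥ x ∈ V.F p z)).1 h.line
    · rw [← hg]
      exact h.mem
    · exact (Q4_forall σ (fun z => ¬ ∀ p, ∀ x ∈ V.F p z, (cm N) *ᵥ x ∈ V.F p z)).1 h.ne
  · intro h
    refine ⟨?_, ?_, ?_, ?_, ?_, ?_⟩
    · rw [hg]
      exact (Q4_forall σ (fun z => ∃ μ, IsGrading V z μ ∧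
        μ ∈ cx (genericMT V : Set (Matrix (Fin n) (Fin n) ℚ)))).2 h.grading
    · rw [hg]
      exact h.lie
    · rw [hg]
      exact (Q4_forall σ (fun z => ∀ X ∈ genericMT V, ∀ p, ∀ x ∈ V.F p z,
        (cm X) *ᵥ x ∈ V.F (p - 1) z)).2 h.sv1
    · rw [hg]
      exact (Q4_forall σ (fun z => ∀ X ∈ genericMT V, ∃ a : ℂ, ∀ p, ∀ x ∈ V.F p z,
        (cm X - a • cm N) *ᵥ x ∈ V.F p z)).2 h.line
    · rw [hg]
      exact h.mem
    · exact (Q4_forall σ (fun z => ¬ ∀ p, ∀ x ∈ V.F p z, (cm N) *ᵥ x ∈ V.F p z)).2 h.ne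

theorem cjG_finite {Δ : Subgroup (Matrix.SpecialLinearGroup (Fin 2) ℝ)} (hΔ : FiniteType Δ) :
    FiniteType (cjG Δ σ) := by
  obtain ⟨K, m, τ, hK, hK0, hT, hcov⟩ := hΔ
  refine ⟨mob σ⁻¹ '' K, m, fun i => σ⁻¹ * τ i, ?_, ?_, ?_, ?_⟩
  · apply hK.image_of_continuousOn
    intro z hz
    exact (mob_analytic σ⁻¹ z (hK0 z hz)).1.continuousAt.continuousWithinAt
  · rintro _ ⟨z, hz, rfl⟩
    exact mob_im_pos _ z (hK0 z hz)
  · intro i
    obtain ⟨T, hT1, hT2⟩ := hT i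
    refine ⟨σ⁻¹ * T * σ, ?_, ?_⟩
    · rw [mem_cjG]
      have h1 : σ * (σ⁻¹ * T * σ) * σ⁻¹ = T := by group
      rw [h1]
      exact hT1
    · intro w hw
      have hw1 : 0 < (w + 1).im := by simpa using hw
      have h2 : 0 < (mob (τ i) w).im := mob_im_pos _ w hw
      have h3 : 0 < (mob (τ i) (w + 1)).im := mob_im_pos _ _ hw1
      rw [mob_mob _ _ _ hw]
      have h4 : σ⁻¹ * T * σ * (σ⁻¹ * τ i) = σ⁻¹ * (T * τ i) := by group
      rw [h4, ← mob_mob _ _ _ hw, ← mob_mob _ _ _ hw, hT2 w hw, mob_mob _ _ _ hw1]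
  · intro z hz
    obtain ⟨g, hg, h⟩ := hcov (mob σ z) (mob_im_pos σ z hz)
    have hgz : mob (σ⁻¹ * g * σ) z = mob σ⁻¹ (mob g (mob σ z)) := by
      rw [mob_mob _ _ _ hz, mob_mob _ _ _ hz, mul_assoc]
    refine ⟨σ⁻¹ * g * σ, ?_, ?_⟩
    · rw [mem_cjG]
      have h1 : σ * (σ⁻¹ * g * σ) * σ⁻¹ = g := by group
      rw [h1]
      exact hg
    · rw [hgz]
      rcases h with h | ⟨i, w, hw1, hw2, h⟩
      · exact Or.inl ⟨_, h, rfl⟩
      · refine Or.inr ⟨i, w, hw1, hw2, ?_⟩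
        rw [h, mob_mob _ _ _ (lt_of_lt_of_le one_pos hw2)]

end MP2794d1
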