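import Pool.Agent.Lib.MP_2794d1_ag.QU.Q1
import Pool.Agent.Lib.MP_2794d1_ag.QU.Q3
import Pool.Agent.Lib.MP_2794d1_ag.QU.Q4

/-!
Q5: Quasi-unipotency (Borel) and the normal form of a cusp: after a Moebius transformation and rescaling z ↦ m z every parabolic
element T of Δ gives a UCusp of the transported variation.
-/

namespace MP2794d1

open Matrix Complex Filter Topology
open scoped ContDiff

/-- a Moebius map equal to `z ↦ z + 1` on the upper half plane is so everywhere -/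
theorem Q5_ext (g : Matrix.SpecialLinearGroup (Fin 2) ℝ) (h : ∀ z : ℂ, 0 < z.im → mob g z = z + 1)
    (z : ℂ) : mob g z = z + 1 := by
  have hdet := F07_det g
  have hz : ∀ w : ℂ, 0 < w.im → ((g 0 0 : ℝ) : ℂ) * w + ((g 0 1 : ℝ) : ℂ) =
      (w + 1) * (((g 1 0 : ℝ) : ℂ) * w + ((g 1 1 : ℝ) : ℂ)) := by
    intro w hw
    have h1 := h w hw
    unfold mob at h1
    rwa [div_eq_iff (F07_den g w hw)] at h1
  have e1 := hz Complex.I (by simp)
  have e2 := hz (2 * Complex.I) (by simp)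
  have i1 := congrArg Complex.im e1
  have r1 := congrArg Complex.re e1
  have i2 := congrArg Complex.im e2
  have r2 := congrArg Complex.re e2
  simp at i1 r1 i2 r2
  have hc : g 1 0 = 0 := by linarith
  have hb : g 0 1 = g 1 1 := by linarith
  have ha : g 0 0 = g 1 1 := by linarith
  have hd : g 1 1 * g 1 1 = 1 := by
    rw [hc, ha] at hdet
    linarith
  have hd0 : g 1 1 ≠ 0 := by
    intro h0
    rw [h0] at hd
    norm_num at hd
  unfold mob
  rw [hc, hb, ha]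
  have hd1 : ((g 1 1 : ℝ) : ℂ) ≠ 0 := by exact_mod_cast hd0
  rw [Complex.ofReal_zero, zero_mul, zero_add, div_eq_iff hd1]
  ring

/-- `z ↦ m z` -/
noncomputable def scl (m : ℕ) : Matrix.SpecialLinearGroup (Fin 2) ℝ :=
  if h : 0 < m then
    ⟨!![Real.sqrt m, 0; 0, (Real.sqrt m)⁻¹], by
      have h1 : Real.sqrt m ≠ 0 := by
        have : (0 : ℝ) < m := by exact_mod_cast h
        positivity
      rw [Matrix.det_fin_two_of, mul_zero, sub_zero, mul_inv_cancel₀ h1]⟩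
  else 1

theorem scl_mob {m : ℕ} (hm : 0 < m) (z : ℂ) : mob (scl m) z = m * z := by
  have h0 : (0 : ℝ) < m := by exact_mod_cast hm
  have h1 : (Real.sqrt m) ≠ 0 := by positivity
  have h2 : ((Real.sqrt m : ℝ) : ℂ) ≠ 0 := by exact_mod_cast h1
  have h3 : ((Real.sqrt m : ℝ) : ℂ) * ((Real.sqrt m : ℝ) : ℂ) = (m : ℂ) := by
    rw [← Complex.ofReal_mul, Real.mul_self_sqrt h0.le]
    simp
  unfold mob scl
  rw [dif_pos hm]
  simp only [Matrix.SpecialLinearGroup.coe_mk, Matrix.of_apply, Matrix.cons_val_zero,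
    Matrix.cons_val_one, Matrix.cons_val', Matrix.cons_val_fin_one, Complex.ofReal_zero, add_zero,
    zero_mul, zero_add, Complex.ofReal_inv]
  rw [div_inv_eq_mul, mul_comm, ← mul_assoc, h3]

/-- powers of the local monodromy -/
theorem Q5_pow {n : ℕ} (V : PolVHS n) (τ : Matrix.SpecialLinearGroup (Fin 2) ℝ) (T : V.grp)
    (hT : ∀ w : ℂ, 0 < w.im → mob T (mob τ w) = mob τ (w + 1)) (m : ℕ) (w : ℂ) (hw : 0 < w.im) :
    mob ((T ^ m : V.grp) : Matrix.SpecialLinearGroup (Fin 2) ℝ) (mob τ w) = mob τ (w + m) := by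
  induction m with
  | zero =>
    rw [pow_zero, OneMemClass.coe_one, mob_one]
    simp
  | succ m ih =>
    have h1 : 0 < (mob τ w).im := mob_im_pos τ w hw
    have h2 : 0 < (w + (m : ℂ)).im := by simpa using hw
    rw [pow_succ', MulMemClass.coe_mul, ← mob_mob _ _ _ h1, ih, hT _ h2]
    congr 1
    push_cast
    ring

/-- **Quasi-unipotency of the local monodromy.** -/
theorem quasi_unip_V {n : ℕ} (V : PolVHS n) (τ : Matrix.SpecialLinearGroup (Fin 2) ℝ) (T : V.grp)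
    (hT : ∀ w : ℂ, 0 < w.im → mob T (mob τ w) = mob τ (w + 1)) :
    ∃ m : ℕ, 0 < m ∧ ((V.rho T : Matrix (Fin n) (Fin n) ℤ) ^ m - 1) ^ n = 0 := by
  apply QU.quasi_unip
  intro lam v hv h
  have hmem : τ⁻¹ * (T : Matrix.SpecialLinearGroup (Fin 2) ℝ) * τ ∈ (cjV V τ).grp := by
    show _ ∈ cjG V.grp τ
    rw [mem_cjG]
    have h1 : τ * (τ⁻¹ * (T : Matrix.SpecialLinearGroup (Fin 2) ℝ) * τ) * τ⁻¹ = T := by group
    rw [h1]
    exact T.2
  have hrho : (cjV V τ).rho ⟨_, hmem⟩ = V.rho T := by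
    show V.rho (cjH V.grp τ ⟨_, hmem⟩) = V.rho T
    congr 1
    apply Subtype.ext
    rw [cjH_coe]
    show τ * (τ⁻¹ * (T : Matrix.SpecialLinearGroup (Fin 2) ℝ) * τ) * τ⁻¹ = T
    group
  apply QU.eig_one (cjV V τ) ⟨_, hmem⟩ _ lam v hv
  · rw [hrho]
    exact h
  · intro z hz
    show mob (τ⁻¹ * (T : Matrix.SpecialLinearGroup (Fin 2) ℝ) * τ) z = z + 1
    have hz1 : 0 < (z + 1).im := by simpa using hz
    rw [mul_assoc, ← mob_mob _ _ _ hz, ← mob_mob _ _ _ hz, hT z hz, mob_mob _ _ _ hz1,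
      inv_mul_cancel, mob_one]

/-- **Normal form of a cusp.** -/
theorem exists_ucusp {n : ℕ} (V : PolVHS n) (τ : Matrix.SpecialLinearGroup (Fin 2) ℝ) (T : V.grp)
    (hT : ∀ w : ℂ, 0 < w.im → mob T (mob τ w) = mob τ (w + 1)) :
    ∃ m : ℕ, 0 < m ∧ ∃ c : UCusp (cjV V (τ * scl m)), c.N ≠ 0 ∨ (V.rho T) ^ m = 1 := by
  obtain ⟨m, hm, hA⟩ := quasi_unip_V V τ T hT
  obtain ⟨N, hN, hexp⟩ := QU.exists_log _ hA
  set σ := τ * scl m with hσ
  have hmem : σ⁻¹ * ((T ^ m : V.grp) : Matrix.SpecialLinearGroup (Fin 2) ℝ) * σ ∈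
      (cjV V σ).grp := by
    show _ ∈ cjG V.grp σ
    rw [mem_cjG]
    have h1 : σ * (σ⁻¹ * ((T ^ m : V.grp) : Matrix.SpecialLinearGroup (Fin 2) ℝ) * σ) * σ⁻¹ =
        ((T ^ m : V.grp) : Matrix.SpecialLinearGroup (Fin 2) ℝ) := by group
    rw [h1]
    exact (T ^ m).2
  have hrho : (cjV V σ).rho ⟨_, hmem⟩ = V.rho T ^ m := by
    rw [← map_pow]
    show V.rho (cjH V.grp σ ⟨_, hmem⟩) = V.rho (T ^ m)
    congr 1
    apply Subtype.ext
    rw [cjH_coe]
    show σ * (σ⁻¹ * ((T ^ m : V.grp) : Matrix.SpecialLinearGroup (Fin 2) ℝ) * σ) * σ⁻¹ =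
      ((T ^ m : V.grp) : Matrix.SpecialLinearGroup (Fin 2) ℝ)
    group
  have hval : ((V.rho T ^ m : Matrix.GeneralLinearGroup (Fin n) ℤ) : Matrix (Fin n) (Fin n) ℤ) =
      (V.rho T : Matrix (Fin n) (Fin n) ℤ) ^ m := by
    rw [Units.val_pow_eq_pow_val]
  have hscl : ∀ z : ℂ, 0 < z.im → mob σ z = mob τ (m * z) := by
    intro z hz
    rw [hσ, ← mob_mob _ _ _ hz, scl_mob hm]
  have hTeq : ∀ z : ℂ, 0 < z.im →
      mob (σ⁻¹ * ((T ^ m : V.grp) : Matrix.SpecialLinearGroup (Fin 2) ℝ) * σ) z = z + 1 := by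
    intro z hz
    have hz1 : 0 < (z + 1).im := by simpa using hz
    have hmz : 0 < ((m : ℂ) * z).im := by
      have h1 : ((m : ℂ) * z).im = m * z.im := by simp
      rw [h1]
      have h2 : (0 : ℝ) < m := by exact_mod_cast hm
      positivity
    have h3 : mob ((T ^ m : V.grp) : Matrix.SpecialLinearGroup (Fin 2) ℝ) (mob σ z) =
        mob σ (z + 1) := by
      rw [hscl z hz, Q5_pow V τ T hT m _ hmz, hscl _ hz1]
      congr 1
      ring
    rw [mul_assoc, ← mob_mob _ _ _ hz, ← mob_mob _ _ _ hz, h3, mob_mob _ _ _ hz1,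
      inv_mul_cancel, mob_one]
  refine ⟨m, hm, ⟨⟨_, hmem⟩, Q5_ext _ hTeq, N, hN, ?_⟩, ?_⟩
  · rw [hrho, hval]
    exact hexp
  · by_cases h0 : N = 0
    · right
      apply Units.ext
      rw [hval]
      apply QU.Q2_im_inj
      rw [hexp, h0, Units.val_one, QU.Q2_im_one]
      unfold uexp
      have h1 : cm (0 : Matrix (Fin n) (Fin n) ℚ) = 0 := by
        ext i j
        simp [cm]
      rw [h1]
      cases n with
      | zero =>
        ext i
        exact i.elim0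
      | succ k =>
        rw [Finset.sum_range_succ', Finset.sum_eq_zero]
        · simp
        · intro j _
          rw [zero_pow (Nat.succ_ne_zero j), smul_zero]
    · left
      exact h0

end MP2794d1
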