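import Pool.Agent.Lib.MP_2794d1_ag.L03
import Pool.Agent.Lib.MP_2794d1_ag.J07

/-!
Q1: The eigenvalues of the local monodromy have absolute value one. With mob T z = z + 1 or z - 1: qf V (mob T z) (ρ v) = qf V z v
(qf_equiv) and qf V z (ρ v) ≤ exp (C / im z) qf V (mob T z) (ρ v) (qf_compare), so |λ|² ≤ exp (C / im z) for all z.
-/

namespace MP2794d1.QU

open Matrix Complex Filter Topology
open scoped ContDiff

/-- eigenvalues of `ρ(T)` are at most one in absolute value -/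
theorem eig_le {n : ℕ} (V : PolVHS n) (T : V.grp) (t : ℂ) (ht : ‖t‖ ≤ 1) (htr : t.im = 0)
    (hT : ∀ z : ℂ, 0 < z.im → mob T z = z + t) (lam : ℂ) (v : Fin n → ℂ) (hv : v ≠ 0)
    (h : im (V.rho T : Matrix (Fin n) (Fin n) ℤ) *ᵥ v = lam • v) : ‖lam‖ ≤ 1 := by
  obtain ⟨C, hC, hcmp⟩ := qf_compare V
  have hsm : ∀ (z : ℂ) (u : Fin n → ℂ) (a : ℂ), qf V z (a • u) = ‖a‖ ^ 2 * qf V z u := by
    intro z u a
    unfold qf hf
    rw [Matrix.mulVec_smul, Matrix.mulVec_smul, dotProduct_smul, star_smul, smul_dotProduct,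
      smul_eq_mul, smul_eq_mul]
    have h1 : Complex.I ^ V.wt * (a * (star a * (star u ⬝ᵥ (im V.Q *ᵥ (CV V z *ᵥ u))))) =
        ((‖a‖ ^ 2 : ℝ) : ℂ) * (Complex.I ^ V.wt * (star u ⬝ᵥ (im V.Q *ᵥ (CV V z *ᵥ u)))) := by
      have h2 : a * star a = ((‖a‖ ^ 2 : ℝ) : ℂ) := by
        rw [Complex.star_def, Complex.mul_conj, Complex.normSq_eq_norm_sq]
      rw [← h2]
      ring
    rw [h1, Complex.re_ofReal_mul]
  have key : ∀ y : ℝ, 2 ≤ y → ‖lam‖ ^ 2 ≤ Real.exp (C * (1 / y)) := by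
    intro y hy
    have hy0 : 0 < y := by linarith
    set z : ℂ := ⟨0, y⟩ with hz
    have hzim : z.im = y := rfl
    have hz0 : 0 < z.im := by rw [hzim]; exact hy0
    have h1 := qf_equiv V T hz0 v
    rw [hT z hz0, h, hsm] at h1
    have h2 : ‖(z + t) - z‖ ≤ z.im / 2 := by
      rw [add_sub_cancel_left, hzim]
      linarith
    have h3 := (hcmp z (z + t) hz0 h2 v).2
    rw [add_sub_cancel_left] at h3
    have hz1 : 0 < (z + t).im := by
      rw [Complex.add_im, htr, add_zero]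
      exact hz0
    have h4 : 0 < qf V (z + t) v := qf_pos V hz1 hv
    have h5 : Real.exp (C * (‖t‖ / z.im)) ≤ Real.exp (C * (1 / y)) := by
      apply Real.exp_le_exp.2
      apply mul_le_mul_of_nonneg_left _ hC
      rw [hzim]
      exact div_le_div_of_nonneg_right ht hy0.le
    have h6 : ‖lam‖ ^ 2 * qf V (z + t) v ≤ Real.exp (C * (1 / y)) * qf V (z + t) v := by
      rw [h1]
      exact h3.trans (mul_le_mul_of_nonneg_right h5 h4.le)
    exact le_of_mul_le_mul_right h6 h4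
  have h7 : ‖lam‖ ^ 2 ≤ 1 := by
    have h8 : Tendsto (fun y : ℝ => Real.exp (C * (1 / y))) atTop (𝓝 1) := by
      have h9 : Tendsto (fun y : ℝ => C * (1 / y)) atTop (𝓝 (C * 0)) := by
        apply Tendsto.const_mul
        have h11 : Tendsto (fun y : ℝ => 1 / y) atTop (𝓝 0) :=
          tendsto_inv_atTop_zero.congr fun y => (one_div y).symm
        exact h11
      rw [mul_zero] at h9
      have h10 := (Real.continuous_exp.tendsto 0).comp h9
      rw [Real.exp_zero] at h10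
      exact h10
    exact ge_of_tendsto h8 (eventually_atTop.2 ⟨2, fun y hy => key y hy⟩)
  nlinarith [norm_nonneg lam]

theorem Q1_inv {n : ℕ} (V : PolVHS n) (T : V.grp) (hT : ∀ z : ℂ, 0 < z.im → mob T z = z + 1)
    (z : ℂ) (hz : 0 < z.im) :
    mob ((T⁻¹ : V.grp) : Matrix.SpecialLinearGroup (Fin 2) ℝ) z = z + (-1) := by
  have h1 : 0 < (z + (-1)).im := by simpa using hz
  have h2 := hT (z + (-1)) h1
  have h3 : z + (-1) + 1 = z := by ring
  rw [h3] at h2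
  conv_lhs => rw [← h2]
  rw [mob_mob _ _ _ h1, InvMemClass.coe_inv, inv_mul_cancel, mob_one]

/-- eigenvalues of `ρ(T)` have absolute value one -/
theorem eig_one {n : ℕ} (V : PolVHS n) (T : V.grp) (hT : ∀ z : ℂ, 0 < z.im → mob T z = z + 1)
    (lam : ℂ) (v : Fin n → ℂ) (hv : v ≠ 0)
    (h : im (V.rho T : Matrix (Fin n) (Fin n) ℤ) *ᵥ v = lam • v) : ‖lam‖ = 1 := by
  obtain ⟨h1, h2⟩ := rho_mul_inv V T
  have hlam : lam ≠ 0 := by
    intro h0
    rw [h0, zero_smul] at h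
    apply hv
    have h3 : im (V.rho T⁻¹ : Matrix (Fin n) (Fin n) ℤ) *ᵥ
        (im (V.rho T : Matrix (Fin n) (Fin n) ℤ) *ᵥ v) = 0 := by rw [h, Matrix.mulVec_zero]
    rwa [Matrix.mulVec_mulVec, h2, Matrix.one_mulVec] at h3
  have h3 : im (V.rho T⁻¹ : Matrix (Fin n) (Fin n) ℤ) *ᵥ v = lam⁻¹ • v := by
    have h4 : im (V.rho T⁻¹ : Matrix (Fin n) (Fin n) ℤ) *ᵥ
        (im (V.rho T : Matrix (Fin n) (Fin n) ℤ) *ᵥ v) = v := by
      rw [Matrix.mulVec_mulVec, h2, Matrix.one_mulVec]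
    rw [h, Matrix.mulVec_smul] at h4
    rw [eq_inv_smul_iff₀ hlam]
    exact h4
  have e1 : ‖lam‖ ≤ 1 := eig_le V T 1 (by simp) (by simp) hT lam v hv h
  have e2 : ‖lam⁻¹‖ ≤ 1 := eig_le V T⁻¹ (-1) (by simp) (by simp) (Q1_inv V T hT) lam⁻¹ v hv h3
  rw [norm_inv] at e2
  have e3 : 0 < ‖lam‖ := norm_pos_iff.2 hlam
  have e4 : 1 ≤ ‖lam‖ := by
    rw [inv_le_one₀ e3] at e2
    exact e2
  exact le_antisymm e1 e4

end MP2794d1.QU
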